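import Pool.Agent.Q309.CPG.Defs

/-!
# Models of Peano arithmetic as ordered semirings, definability toolkit, overspill
-/

set_option autoImplicit false
set_option linter.unusedSectionVars false

namespace Pool.Agent.Q309.CPG

open FirstOrder FirstOrder.Language

universe u v

section semiring

variable {M : Type u} [LPA.Structure M]

/-- The semiring structure of a model of Peano arithmetic. -/
@[reducible] noncomputable def IsPA.semiring (h : IsPA M) : CommSemiring M where
  add := pAdd
  zero := pZero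
  mul := pMul
  one := pOne
  add_assoc := h.add_assoc
  zero_add x := by
    change pAdd pZero x = x
    rw [h.add_comm, h.add_zero]
  add_zero := h.add_zero
  add_comm := h.add_comm
  left_distrib := h.distrib
  right_distrib x y z := by
    change pMul (pAdd x y) z = pAdd (pMul x z) (pMul y z)
    rw [h.mul_comm, h.distrib, h.mul_comm z x, h.mul_comm z y]
  zero_mul x := by
    change pMul pZero x = pZero
    rw [h.mul_comm, h.mul_zero]
  mul_zero := h.mul_zero
  mul_assoc := h.mul_assoc
  one_mul x := by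
    change pMul pOne x = x
    rw [h.mul_comm, h.mul_one]
  mul_one := h.mul_one
  mul_comm := h.mul_comm
  nsmul := @nsmulRec M ⟨pZero⟩ ⟨pAdd⟩

open Classical in
/-- The linear order of a model of Peano arithmetic. -/
@[reducible] noncomputable def IsPA.order (h : IsPA M) : LinearOrder M where
  le x y := pLt x y ∨ x = y
  lt x y := pLt x y
  le_refl x := Or.inr rfl
  le_trans x y z := by
    rintro (h1 | rfl) (h2 | rfl)
    · exact Or.inl (h.lt_trans _ _ _ h1 h2)
    · exact Or.inl h1
    · exact Or.inl h2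
    · exact Or.inr rfl
  lt_iff_le_not_ge x y := by
    constructor
    · intro h1
      refine ⟨Or.inl h1, ?_⟩
      rintro (h2 | rfl)
      · exact h.lt_irrefl _ (h.lt_trans _ _ _ h1 h2)
      · exact h.lt_irrefl _ h1
    · rintro ⟨h1 | rfl, h2⟩
      · exact h1
      · exact absurd (Or.inr rfl) h2
  le_antisymm x y := by
    rintro (h1 | rfl) (h2 | h2)
    · exact absurd (h.lt_trans _ _ _ h1 h2) (h.lt_irrefl _)
    · exact h2.symm
    · rfl
    · rfl
  le_total x y := by
    rcases h.lt_total x y with h1 | h1 | h1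
    · exact Or.inl (Or.inl h1)
    · exact Or.inl (Or.inr h1)
    · exact Or.inr (Or.inl h1)
  toDecidableLE := Classical.decRel _

end semiring

/-- A model of Peano arithmetic with compatible instances of a semiring and an order. -/
class PAModel (M : Type u) [LPA.Structure M] [CommSemiring M] [LinearOrder M] : Prop where
  add_eq : ∀ x y : M, pAdd x y = x + y
  zero_eq : (pZero : M) = 0
  mul_eq : ∀ x y : M, pMul x y = x * y
  one_eq : (pOne : M) = 1
  lt_eq : ∀ x y : M, pLt x y ↔ x < y
  exists_add : ∀ x y : M, x < y → ∃ z, x + z = y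
  one_le : ∀ x : M, 0 < x → 1 ≤ x
  nonneg : ∀ x : M, 0 ≤ x
  induct : ∀ S : Set M, (Set.univ : Set M).Definable₁ LPA S → 0 ∈ S →
    (∀ x ∈ S, x + 1 ∈ S) → ∀ x, x ∈ S

theorem IsPA.ordered {M : Type u} [LPA.Structure M] (h : IsPA M) :
    letI := h.semiring
    letI := h.order
    IsStrictOrderedRing M := by
  let := h.semiring
  let := h.order
  have hadd : ∀ a b : M, a < b → ∀ c : M, a + c < b + c := fun a b hab c => h.add_lt a b c hab
  have hadd' : ∀ a b : M, a ≤ b → ∀ c : M, a + c ≤ b + c := by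
    intro a b hab c
    rcases hab.lt_or_eq with h1 | rfl
    · exact (hadd a b h1 c).le
    · exact le_rfl
  have hcancel : ∀ a b c : M, a + b ≤ a + c → b ≤ c := by
    intro a b c h1
    by_contra h2
    have h3 := hadd c b (not_le.1 h2) a
    rw [_root_.add_comm c a, _root_.add_comm b a] at h3
    exact absurd h1 (not_le.2 h3)
  exact
    { add_le_add_left := fun a b hab c => hadd' a b hab c
      le_of_add_le_add_left := hcancel
      zero_le_one := Or.inl h.zero_lt_one
      exists_pair_ne := ⟨0, 1, fun h1 => h.lt_irrefl (1 : M) (by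
        have h2 := h.zero_lt_one
        have h3 : (pZero : M) = pOne := h1
        rw [h3] at h2
        exact h2)⟩
      mul_lt_mul_of_pos_left := by
        intro a ha b c hbc
        have h1 := h.mul_lt b c a ha hbc
        change pLt (pMul a b) (pMul a c)
        rw [h.mul_comm a b, h.mul_comm a c]
        exact h1
      mul_lt_mul_of_pos_right := by
        intro a ha b c hbc
        exact h.mul_lt b c a ha hbc }

theorem IsPA.model {M : Type u} [LPA.Structure M] (h : IsPA M) :
    letI := h.semiring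
    letI := h.order
    PAModel M := by
  let := h.semiring
  let := h.order
  exact
    { add_eq := fun _ _ => rfl
      zero_eq := rfl
      mul_eq := fun _ _ => rfl
      one_eq := rfl
      lt_eq := fun _ _ => Iff.rfl
      exists_add := fun x y hxy => h.lt_exists x y hxy
      one_le := fun x hx => by
        rcases h.discrete x hx with h1 | h1
        · exact h1.ge
        · exact le_of_lt h1
      nonneg := fun x => by
        rcases h.nonneg x with h1 | h1
        · exact h1.ge
        · exact le_of_lt h1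
      induct := h.induction }

/-! ### Definability toolkit -/

section toolkit

variable {M : Type u} [LPA.Structure M] {α : Type}

/-- Definability of a predicate, with parameters. -/
def Dfb (R : (α → M) → Prop) : Prop := (Set.univ : Set M).Definable LPA {v | R v}

theorem Dfb.congr {R R' : (α → M) → Prop} (h : Dfb R) (h' : ∀ v, R v ↔ R' v) : Dfb R' := by
  have : {v | R v} = {v | R' v} := Set.ext h'
  unfold Dfb
  rw [← this]
  exact h

theorem Dfb.not {R : (α → M) → Prop} (h : Dfb R) : Dfb fun v => ¬ R v :=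
  Set.Definable.compl h

theorem Dfb.and {R R' : (α → M) → Prop} (h : Dfb R) (h' : Dfb R') : Dfb fun v => R v ∧ R' v :=
  Set.Definable.inter h h'

theorem Dfb.or {R R' : (α → M) → Prop} (h : Dfb R) (h' : Dfb R') : Dfb fun v => R v ∨ R' v :=
  Set.Definable.union h h'

theorem Dfb.true : Dfb fun _ : α → M => True :=
  Set.definable_univ

theorem Dfb.all_fin {ι : Type} [Finite ι] {R : ι → (α → M) → Prop} (h : ∀ i, Dfb (R i)) :
    Dfb fun v => ∀ i, R i v := by
  have h1 := Set.definable_iInter_of_finite (L := LPA) (A := (Set.univ : Set M))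
    (f := fun i => {v | R i v}) h
  have h2 : (⋂ i, {v | R i v}) = {v : α → M | ∀ i, R i v} := by
    ext v
    simp
  rw [h2] at h1
  exact h1

theorem Dfb.all_finset {ι : Type*} (s : Finset ι) {R : ι → (α → M) → Prop}
    (h : ∀ i ∈ s, Dfb (R i)) : Dfb fun v => ∀ i ∈ s, R i v := by
  classical
  induction s using Finset.induction_on with
  | empty => exact Dfb.true.congr fun v => by simp
  | insert a s ha ih =>
    have h1 := (h a (Finset.mem_insert_self _ _)).and
      (ih fun i hi => h i (Finset.mem_insert_of_mem hi))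
    exact h1.congr fun v => by simp

theorem Dfb.comp {β : Type} (f : α → β) {R : (α → M) → Prop} (h : Dfb R) :
    Dfb fun v : β → M => R (v ∘ f) :=
  Set.Definable.preimage_comp f h

theorem Dfb.ex {m : ℕ} {R : (α ⊕ Fin m → M) → Prop} (h : Dfb R) :
    Dfb fun v : α → M => ∃ t : Fin m → M, R (Sum.elim v t) := by
  have h1 := Set.Definable.image_comp_sumInl_fin m h
  have h2 : ((fun g : α ⊕ Fin m → M => g ∘ Sum.inl) '' {v | R v}) =
      {v : α → M | ∃ t : Fin m → M, R (Sum.elim v t)} := by
    ext v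
    constructor
    · rintro ⟨w, hw, rfl⟩
      refine ⟨w ∘ Sum.inr, ?_⟩
      rw [Sum.elim_comp_inl_inr]
      exact hw
    · rintro ⟨t, ht⟩
      exact ⟨_, ht, Sum.elim_comp_inl _ _⟩
  rw [h2] at h1
  exact h1

/-- Functions given by terms with parameters. -/
def TmF (T : (α → M) → M) : Prop :=
  ∃ t : (LPA[[(Set.univ : Set M)]]).Term α, ∀ v, t.realize v = T v

theorem TmF.var (i : α) : TmF fun v : α → M => v i := ⟨Term.var i, fun _ => rfl⟩

theorem TmF.const (a : M) : TmF fun _ : α → M => a := by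
  refine ⟨(LPA.con (⟨a, trivial⟩ : (Set.univ : Set M))).term, fun v => ?_⟩
  simp

theorem TmF.add {S T : (α → M) → M} (hS : TmF S) (hT : TmF T) :
    TmF fun v => pAdd (S v) (T v) := by
  obtain ⟨s, hs⟩ := hS
  obtain ⟨t, ht⟩ := hT
  refine ⟨Functions.apply₂ (Sum.inl sAdd : (LPA[[(Set.univ : Set M)]]).Functions 2) s t,
    fun v => ?_⟩
  have h1 := Term.realize_functions_apply₂ (L := LPA[[(Set.univ : Set M)]]) (v := v) (t₁ := s)
    (t₂ := t) (f := (Sum.inl sAdd : (LPA[[(Set.univ : Set M)]]).Functions 2))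
  rw [h1, hs, ht]
  rfl

theorem Dfb.lt {S T : (α → M) → M} (hS : TmF S) (hT : TmF T) :
    Dfb fun v => pLt (S v) (T v) := by
  obtain ⟨s, hs⟩ := hS
  obtain ⟨t, ht⟩ := hT
  refine ⟨Relations.formula₂ (Sum.inl sLt : (LPA[[(Set.univ : Set M)]]).Relations 2) s t, ?_⟩
  ext v
  change pLt (S v) (T v) ↔ _
  have h1 := Formula.realize_rel₂ (L := LPA[[(Set.univ : Set M)]]) (v := v) (t₁ := s)
    (t₂ := t) (R := (Sum.inl sLt : (LPA[[(Set.univ : Set M)]]).Relations 2))
  rw [hs, ht] at h1
  exact h1.symm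

theorem Dfb.eq {S T : (α → M) → M} (hS : TmF S) (hT : TmF T) :
    Dfb fun v => S v = T v := by
  obtain ⟨s, hs⟩ := hS
  obtain ⟨t, ht⟩ := hT
  refine ⟨Term.equal s t, ?_⟩
  ext v
  change S v = T v ↔ _
  rw [← hs, ← ht]
  exact Formula.realize_equal.symm

end toolkit

/-! ### Standard elements and overspill -/

section standard

variable {M : Type u} [LPA.Structure M] [CommSemiring M] [LinearOrder M] [IsStrictOrderedRing M]
  [PAModel M]

theorem lt_add_one_iff' {x y : M} : x < y + 1 ↔ x ≤ y := by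
  constructor
  · intro h
    by_contra h1
    have h1 := not_le.1 h1
    obtain ⟨z, hz⟩ := PAModel.exists_add _ _ h1
    have hz0 : 0 < z := by
      rcases (PAModel.nonneg z).lt_or_eq with h2 | h2
      · exact h2
      · rw [← h2, add_zero] at hz
        exact absurd hz h1.ne
    have h3 := PAModel.one_le z hz0
    have h4 : y + 1 ≤ x := by
      rw [← hz]
      exact add_le_add_right h3 y
    exact absurd h (not_lt.2 h4)
  · intro h
    exact h.trans_lt (lt_add_one y)

theorem std_of_le {x : M} {n : ℕ} (h : x ≤ (n : M)) : ∃ m ≤ n, x = (m : M) := by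
  induction n generalizing x with
  | zero =>
    refine ⟨0, le_rfl, le_antisymm h ?_⟩
    rw [Nat.cast_zero]
    exact PAModel.nonneg x
  | succ n ih =>
    rcases h.lt_or_eq with h1 | h1
    · rw [Nat.cast_succ, lt_add_one_iff'] at h1
      obtain ⟨m, hm, rfl⟩ := ih h1
      exact ⟨m, hm.trans (Nat.le_succ n), rfl⟩
    · exact ⟨n + 1, le_rfl, h1⟩

/-- Standard elements. -/
def Std (x : M) : Prop := ∃ n : ℕ, x = (n : M)

theorem nonstd_gt {x : M} (h : ¬ Std x) (n : ℕ) : (n : M) < x := by
  by_contra h1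
  obtain ⟨m, -, hm⟩ := std_of_le (not_lt.1 h1)
  exact h ⟨m, hm⟩

theorem overspill {S : M → Prop} (hS : Dfb fun v : Fin 1 → M => S (v 0))
    (hstd : ∀ n : ℕ, S (n : M)) {a : M} (ha : ¬ Std a) : ∃ b, S b ∧ ¬ Std b := by
  by_contra hcon
  push Not at hcon
  have h1 := PAModel.induct {x | S x} hS (by simpa using hstd 0) (by
    intro x hx
    obtain ⟨n, rfl⟩ := hcon x hx
    have := hstd (n + 1)
    rw [Nat.cast_succ] at this
    exact this) a
  exact ha (hcon a h1)

theorem exists_add_of_le {x y : M} (h : x ≤ y) : ∃ z, x + z = y := by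
  rcases h.lt_or_eq with h1 | h1
  · exact PAModel.exists_add _ _ h1
  · exact ⟨0, by rw [add_zero, h1]⟩

theorem interval_finite (c : M) (n : ℕ) : {y : M | c ≤ y ∧ y ≤ c + n}.Finite := by
  refine ((Finset.range (n + 1)).finite_toSet.image (fun m : ℕ => c + (m : M))).subset ?_
  rintro y ⟨h1, h2⟩
  obtain ⟨z, rfl⟩ := exists_add_of_le h1
  obtain ⟨m, hm, rfl⟩ := std_of_le (le_of_add_le_add_left h2)
  exact ⟨m, by simpa [Nat.lt_succ_iff] using hm, rfl⟩

theorem spread_avoid {n : ℕ} {B : Set (Fin n → M)} (hB : Spread B) {W : Set M}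
    (hW : W.Finite) : ∃ t ∈ B, ∀ i, t i ∉ W := by
  by_contra hcon
  push Not at hcon
  refine hB.infinite ?_
  have h1 : B ⊆ ⋃ w ∈ W, {t | t ∈ B ∧ ∃ i, t i = w} := by
    intro t ht
    obtain ⟨i, hi⟩ := hcon t ht
    exact Set.mem_biUnion hi ⟨ht, i, rfl⟩
  refine (hW.biUnion fun w _ => ?_).subset h1
  refine Set.Subsingleton.finite ?_
  rintro t ⟨ht, i, hi⟩ t' ⟨ht', j, hj⟩
  by_contra hne
  exact hB.disj t ht t' ht' hne i j (hi.trans hj.symm)

/-- Avoiding finitely many points and finitely many external blocks. -/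
theorem avoid {n : ℕ} {D : Set (Fin n → M)} (hD : (Set.univ : Set M).Definable LPA D)
    (hB : ∃ B ⊆ D, Spread B) (F C : Finset M) {a : M} (ha : ¬ Std a) :
    ∃ t ∈ D, Function.Injective t ∧ ∀ i, t i ∉ F ∧ ∀ c ∈ C, ∀ k : ℕ, t i ≠ c + k := by
  obtain ⟨B, hBD, hB⟩ := hB
  let S : M → Prop := fun k => ∃ t : Fin n → M, t ∈ D ∧ (∀ i j, i ≠ j → ¬ t i = t j) ∧
    (∀ i, (∀ x ∈ F, ¬ t i = x) ∧ ∀ c ∈ C, ¬ (¬ pLt (t i) c ∧ ¬ pLt (pAdd c k) (t i)))
  have hS : Dfb fun v : Fin 1 → M => S (v 0) := by
    have h1 : Dfb (M := M) (α := Fin 1 ⊕ Fin n) fun w => (w ∘ Sum.inr) ∈ D ∧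
        (∀ i j, i ≠ j → ¬ w (Sum.inr i) = w (Sum.inr j)) ∧
        (∀ i, (∀ x ∈ F, ¬ w (Sum.inr i) = x) ∧ ∀ c ∈ C, ¬ (¬ pLt (w (Sum.inr i)) c ∧
          ¬ pLt (pAdd c (w (Sum.inl 0))) (w (Sum.inr i)))) := by
      refine Dfb.and (Dfb.comp Sum.inr hD) (Dfb.and ?_ ?_)
      · refine Dfb.all_fin fun i => Dfb.all_fin fun j => ?_
        by_cases hij : i = j
        · exact Dfb.true.congr fun v => by simp [hij]
        · exact ((Dfb.eq (TmF.var (Sum.inr i)) (TmF.var (Sum.inr j))).not).congr
            fun v => by simp [hij]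
      · refine Dfb.all_fin fun i => Dfb.and ?_ ?_
        · exact Dfb.all_finset F fun x _ => (Dfb.eq (TmF.var (Sum.inr i)) (TmF.const x)).not
        · exact Dfb.all_finset C fun c _ => ((Dfb.lt (TmF.var (Sum.inr i)) (TmF.const c)).not.and
            (Dfb.lt ((TmF.const c).add (TmF.var (Sum.inl 0))) (TmF.var (Sum.inr i))).not).not
    exact h1.ex
  obtain ⟨b, ⟨t, h1, h2, h3⟩, hb⟩ := overspill hS (fun k => by
    obtain ⟨t, ht, ht'⟩ := spread_avoid hB (W := (F : Set M) ∪ ⋃ c ∈ C, {y : M | c ≤ y ∧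
      y ≤ c + k}) (F.finite_toSet.union (C.finite_toSet.biUnion fun c _ => interval_finite c k))
    refine ⟨t, hBD ht, fun i j hij h => hij (hB.inj t ht h), fun i => ⟨fun x hx h => ?_,
      fun c hc h => ?_⟩⟩
    · exact ht' i (Or.inl (h ▸ hx))
    · refine ht' i (Or.inr (Set.mem_biUnion hc ?_))
      rw [PAModel.lt_eq, PAModel.lt_eq, PAModel.add_eq, not_lt, not_lt] at h
      exact h) ha
  refine ⟨t, h1, fun i j h => ?_, fun i => ⟨fun h => (h3 i).1 _ h rfl, fun c hc k h => ?_⟩⟩
  · by_contra hij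
    exact h2 i j hij h
  · refine (h3 i).2 c hc ?_
    rw [PAModel.lt_eq, PAModel.lt_eq, PAModel.add_eq, not_lt, not_lt, h]
    refine ⟨?_, ?_⟩
    · exact le_add_of_nonneg_right (PAModel.nonneg _)
    · exact add_le_add_right (nonstd_gt hb k).le c

end standard

end Pool.Agent.Q309.CPG
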