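import Mathlib

/-!
# Strongly CP-generic predicates on models of Peano arithmetic: definitions
-/

set_option autoImplicit false

namespace Pool.Agent.Q309.CPG

open FirstOrder FirstOrder.Language

universe u v

/-- The function symbols of the language of Peano arithmetic. -/
inductive PAFunc : ℕ → Type
  | zero : PAFunc 0
  | one : PAFunc 0
  | add : PAFunc 2
  | mul : PAFunc 2

/-- The relation symbols of the language of Peano arithmetic. -/
inductive PARel : ℕ → Type
  | lt : PARel 2

/-- The language `{0, 1, +, ·, <}` of Peano arithmetic. -/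
def LPA : FirstOrder.Language.{0, 0} := ⟨PAFunc, PARel⟩

/-- The symbol `0`. -/
abbrev sZero : LPA.Functions 0 := PAFunc.zero

/-- The symbol `1`. -/
abbrev sOne : LPA.Functions 0 := PAFunc.one

/-- The symbol `+`. -/
abbrev sAdd : LPA.Functions 2 := PAFunc.add

/-- The symbol `·`. -/
abbrev sMul : LPA.Functions 2 := PAFunc.mul

/-- The symbol `<`. -/
abbrev sLt : LPA.Relations 2 := PARel.lt

section

variable {M : Type u} [LPA.Structure M]

/-- Interpretation of `0`. -/
def pZero : M := Structure.funMap sZero ![]

/-- Interpretation of `1`. -/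
def pOne : M := Structure.funMap sOne ![]

/-- Interpretation of `+`. -/
def pAdd (x y : M) : M := Structure.funMap sAdd ![x, y]

/-- Interpretation of `·`. -/
def pMul (x y : M) : M := Structure.funMap sMul ![x, y]

/-- Interpretation of `<`. -/
def pLt (x y : M) : Prop := Structure.RelMap sLt ![x, y]

end

/-- `M` is a model of Peano arithmetic: it satisfies the axioms of discretely ordered semirings
and induction for all sets that are definable in `M` with parameters. -/
structure IsPA (M : Type u) [LPA.Structure M] : Prop where
  add_assoc : ∀ x y z : M, pAdd (pAdd x y) z = pAdd x (pAdd y z)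
  add_comm : ∀ x y : M, pAdd x y = pAdd y x
  mul_assoc : ∀ x y z : M, pMul (pMul x y) z = pMul x (pMul y z)
  mul_comm : ∀ x y : M, pMul x y = pMul y x
  distrib : ∀ x y z : M, pMul x (pAdd y z) = pAdd (pMul x y) (pMul x z)
  add_zero : ∀ x : M, pAdd x pZero = x
  mul_zero : ∀ x : M, pMul x pZero = pZero
  mul_one : ∀ x : M, pMul x pOne = x
  lt_trans : ∀ x y z : M, pLt x y → pLt y z → pLt x z
  lt_irrefl : ∀ x : M, ¬ pLt x x
  lt_total : ∀ x y : M, pLt x y ∨ x = y ∨ pLt y x
  add_lt : ∀ x y z : M, pLt x y → pLt (pAdd x z) (pAdd y z)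
  mul_lt : ∀ x y z : M, pLt pZero z → pLt x y → pLt (pMul x z) (pMul y z)
  lt_exists : ∀ x y : M, pLt x y → ∃ z, pAdd x z = y
  zero_lt_one : pLt (pZero : M) pOne
  discrete : ∀ x : M, pLt pZero x → x = pOne ∨ pLt pOne x
  nonneg : ∀ x : M, x = pZero ∨ pLt pZero x
  induction : ∀ S : Set M, (Set.univ : Set M).Definable₁ LPA S → pZero ∈ S →
    (∀ x ∈ S, pAdd x pOne ∈ S) → ∀ x, x ∈ S

/-- A set of `n`-tuples is spread: it is infinite, its tuples have pairwise distinct entries, and
distinct tuples have disjoint sets of entries. -/
structure Spread {M : Type u} {n : ℕ} (B : Set (Fin n → M)) : Prop where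
  infinite : B.Infinite
  inj : ∀ t ∈ B, Function.Injective t
  disj : ∀ t ∈ B, ∀ t' ∈ B, t ≠ t' → ∀ i j, t i ≠ t' j

/-- `X` is strongly CP-generic in `M`: every set `D` of `n`-tuples (`n ≥ 1`) which is definable
in the language of Peano arithmetic with parameters from `M` and contains a spread set contains,
for every `I ⊆ {1, …, n}`, a tuple whose entries in `X` are exactly those with index in `I`. -/
def StronglyCPGeneric {M : Type u} [LPA.Structure M] (X : Set M) : Prop :=
  ∀ n : ℕ, 1 ≤ n → ∀ D : Set (Fin n → M), (Set.univ : Set M).Definable LPA D →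
    (∃ B ⊆ D, Spread B) → ∀ I : Set (Fin n), ∃ b ∈ D, ∀ i, b i ∈ X ↔ i ∈ I

/-- The relation symbols of the language with one unary predicate symbol `U`. -/
inductive URel : ℕ → Type
  | U : URel 1

/-- The language with one unary predicate symbol `U`. -/
def LU : FirstOrder.Language.{0, 0} := ⟨fun _ => Empty, URel⟩

/-- The language of Peano arithmetic together with a unary predicate symbol `U`. -/
abbrev LPU : FirstOrder.Language.{0, 0} := LPA.sum LU

/-- The structure interpreting `U` by the set `X`. -/
@[reducible] def uStr {M : Type u} (X : Set M) : LU.Structure M where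
  funMap := fun f _ => Empty.elim f
  RelMap | .U => fun t => t 0 ∈ X

/-- The expansion `(M, X)` of `M`. -/
@[reducible] def expand {M : Type u} [LPA.Structure M] (X : Set M) : LPU.Structure M :=
  letI := uStr X
  inferInstance

/-- The elementary embeddings of `(M, X)` into `(N, Y)`. -/
def ElemEmb {M : Type u} [LPA.Structure M] (X : Set M) {N : Type v} [LPA.Structure N]
    (Y : Set N) : Type (max u v) :=
  @ElementaryEmbedding LPU M N (expand X) (expand Y)

/-- The underlying function of an elementary embedding of `(M, X)` into `(N, Y)`. -/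
def ElemEmb.fn {M : Type u} [LPA.Structure M] {X : Set M} {N : Type v} [LPA.Structure N]
    {Y : Set N} (f : ElemEmb X Y) : M → N :=
  @ElementaryEmbedding.toFun LPU M N (expand X) (expand Y) f

end Pool.Agent.Q309.CPG
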