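import Pool.Agent.Q309.CPG.Gen

/-!
# The formulas that define the standard cut and the coding of the elements
-/

set_option autoImplicit false
set_option linter.unusedSectionVars false

namespace Pool.Agent.Q309.CPG

open FirstOrder FirstOrder.Language

universe u v

/-- The symbol `U`. -/
abbrev sU : LU.Relations 1 := URel.U

/-- A variable. -/
def tv {n : ℕ} (i : Fin n) : LPU.Term (Empty ⊕ Fin n) := Term.var (Sum.inr i)

/-- Sum of terms. -/
def tAdd {n : ℕ} (s t : LPU.Term (Empty ⊕ Fin n)) : LPU.Term (Empty ⊕ Fin n) :=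
  Functions.apply₂ (Sum.inl sAdd : LPU.Functions 2) s t

/-- Product of terms. -/
def tMul {n : ℕ} (s t : LPU.Term (Empty ⊕ Fin n)) : LPU.Term (Empty ⊕ Fin n) :=
  Functions.apply₂ (Sum.inl sMul : LPU.Functions 2) s t

/-- The term `1`. -/
def tOne {n : ℕ} : LPU.Term (Empty ⊕ Fin n) := Term.func (Sum.inl sOne : LPU.Functions 0) ![]

/-- The formula `s < t`. -/
def fLt {n : ℕ} (s t : LPU.Term (Empty ⊕ Fin n)) : LPU.BoundedFormula Empty n :=
  Relations.boundedFormula₂ (Sum.inl sLt : LPU.Relations 2) s t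

/-- The formula `U(t)`. -/
def fU {n : ℕ} (t : LPU.Term (Empty ⊕ Fin n)) : LPU.BoundedFormula Empty n :=
  Relations.boundedFormula₁ (Sum.inr sU : LPU.Relations 1) t

/-- Truth of a formula in `(M, X)`. -/
def Tr {M : Type u} [LPA.Structure M] (X : Set M) {n : ℕ} (φ : LPU.BoundedFormula Empty n)
    (w : Fin n → M) : Prop :=
  @BoundedFormula.Realize LPU M (expand X) Empty n φ Empty.elim w

/-- Value of a term in `(M, X)`. -/
def Vl {M : Type u} [LPA.Structure M] (X : Set M) {n : ℕ} (t : LPU.Term (Empty ⊕ Fin n))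
    (w : Fin n → M) : M :=
  @Term.realize LPU M (expand X) (Empty ⊕ Fin n) (Sum.elim Empty.elim w) t

section

variable {M : Type u} [LPA.Structure M] (X : Set M) {n : ℕ} (w : Fin n → M)

theorem vl_tv (i : Fin n) : Vl X (tv i) w = w i := rfl

theorem vl_add (s t : LPU.Term (Empty ⊕ Fin n)) :
    Vl X (tAdd s t) w = pAdd (Vl X s w) (Vl X t w) := by
  let := expand X
  exact Term.realize_functions_apply₂

theorem vl_mul (s t : LPU.Term (Empty ⊕ Fin n)) :
    Vl X (tMul s t) w = pMul (Vl X s w) (Vl X t w) := by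
  let := expand X
  exact Term.realize_functions_apply₂

theorem vl_one : Vl X (tOne : LPU.Term (Empty ⊕ Fin n)) w = pOne := by
  let := expand X
  change Structure.funMap (L := LPU) (Sum.inl sOne) _ = Structure.funMap (L := LPU) (Sum.inl sOne) _
  congr 1
  funext i
  exact i.elim0

theorem tr_lt (s t : LPU.Term (Empty ⊕ Fin n)) :
    Tr X (fLt s t) w ↔ pLt (Vl X s w) (Vl X t w) := by
  let := expand X
  exact BoundedFormula.realize_rel₂

theorem tr_U (t : LPU.Term (Empty ⊕ Fin n)) : Tr X (fU t) w ↔ Vl X t w ∈ X := by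
  let := expand X
  exact BoundedFormula.realize_rel₁

theorem tr_eq (s t : LPU.Term (Empty ⊕ Fin n)) :
    Tr X (s.bdEqual t) w ↔ Vl X s w = Vl X t w := by
  let := expand X
  exact BoundedFormula.realize_bdEqual _ _

theorem tr_not (φ : LPU.BoundedFormula Empty n) : Tr X φ.not w ↔ ¬ Tr X φ w := by
  let := expand X
  exact BoundedFormula.realize_not

theorem tr_imp (φ ψ : LPU.BoundedFormula Empty n) :
    Tr X (φ.imp ψ) w ↔ (Tr X φ w → Tr X ψ w) := by
  let := expand X
  exact BoundedFormula.realize_imp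

theorem tr_iff (φ ψ : LPU.BoundedFormula Empty n) :
    Tr X (φ.iff ψ) w ↔ (Tr X φ w ↔ Tr X ψ w) := by
  let := expand X
  exact BoundedFormula.realize_iff

theorem tr_and (φ ψ : LPU.BoundedFormula Empty n) :
    Tr X (φ ⊓ ψ) w ↔ (Tr X φ w ∧ Tr X ψ w) := by
  let := expand X
  exact BoundedFormula.realize_inf

theorem tr_all (φ : LPU.BoundedFormula Empty (n + 1)) :
    Tr X φ.all w ↔ ∀ a, Tr X φ (Fin.snoc w a) := by
  let := expand X
  exact BoundedFormula.realize_all

theorem tr_ex (φ : LPU.BoundedFormula Empty (n + 1)) :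
    Tr X φ.ex w ↔ ∃ a, Tr X φ (Fin.snoc w a) := by
  let := expand X
  exact BoundedFormula.realize_ex

end

/-- The formula `θ(k)`: there is `c` such that the interval `[c, c + k]` is disjoint from `U`. -/
def theta {n : ℕ} (k : Fin n) : LPU.BoundedFormula Empty n :=
  (((fLt (tv k.castSucc.castSucc) (tv (Fin.last (n + 1)))).not.imp
    (fU (tAdd (tv (Fin.last n).castSucc) (tv (Fin.last (n + 1))))).not).all).ex

/-- The formula coding elements: for all sufficiently large standard `k`, we have
`U(ν x + k)` iff `i + 1` divides `k`. -/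
def eta {n : ℕ} (ν x i : Fin n) : LPU.BoundedFormula Empty n :=
  (theta (Fin.last n) ⊓
    (((theta (Fin.last (n + 1)) ⊓
        (fLt (tv (Fin.last (n + 1))) (tv (Fin.last n).castSucc)).not).imp
      ((fU (tAdd (tMul (tv ν.castSucc.castSucc) (tv x.castSucc.castSucc))
          (tv (Fin.last (n + 1))))).iff
        ((tv (Fin.last (n + 1)).castSucc).bdEqual
          (tMul (tAdd (tv i.castSucc.castSucc.castSucc) tOne) (tv (Fin.last (n + 2))))).ex)).all)).ex

/-- The meaning of `θ`. -/
def Th {M : Type u} [LPA.Structure M] (X : Set M) (k : M) : Prop :=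
  ∃ c, ∀ z, ¬ pLt k z → pAdd c z ∉ X

/-- The meaning of the coding formula. -/
def Et {M : Type u} [LPA.Structure M] (X : Set M) (ν x i : M) : Prop :=
  ∃ k₀, Th X k₀ ∧ ∀ k, (Th X k ∧ ¬ pLt k k₀) →
    (pAdd (pMul ν x) k ∈ X ↔ ∃ q, k = pMul (pAdd i pOne) q)

section

variable {M : Type u} [LPA.Structure M] (X : Set M) {n : ℕ} (w : Fin n → M)

theorem tr_theta (k : Fin n) : Tr X (theta k) w ↔ Th X (w k) := by
  unfold theta Th
  simp only [tr_ex, tr_all, tr_imp, tr_not, tr_lt, tr_U, vl_add, vl_tv, Fin.snoc_last,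
    Fin.snoc_castSucc]

theorem tr_eta (ν x i : Fin n) : Tr X (eta ν x i) w ↔ Et X (w ν) (w x) (w i) := by
  unfold eta Et
  simp only [tr_ex, tr_all, tr_imp, tr_not, tr_lt, tr_U, tr_and, tr_iff, tr_eq, tr_theta, vl_add,
    vl_mul, vl_one, vl_tv, Fin.snoc_last, Fin.snoc_castSucc]

end

section emb

variable {M : Type u} [LPA.Structure M] {X : Set M} {N : Type v} [LPA.Structure N] {Y : Set N}

theorem ElemEmb.tr (f : ElemEmb X Y) {n : ℕ} (φ : LPU.BoundedFormula Empty n) (w : Fin n → M) :
    Tr Y φ (fun i => f.fn (w i)) ↔ Tr X φ w := by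
  have key : @BoundedFormula.Realize LPU N (expand Y) Empty n φ (f.fn ∘ Empty.elim) (f.fn ∘ w) ↔
      @BoundedFormula.Realize LPU M (expand X) Empty n φ Empty.elim w := by
    let := expand X
    let := expand Y
    exact ElementaryEmbedding.map_boundedFormula (L := LPU) (M := M) (N := N) f φ Empty.elim w
  have h1 : f.fn ∘ (Empty.elim : Empty → M) = Empty.elim := funext fun x => x.elim
  rw [h1] at key
  exact key

theorem ElemEmb.one (f : ElemEmb X Y) : f.fn pOne = pOne := by
  let := expand X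
  let := expand Y
  have h := ElementaryEmbedding.map_fun (L := LPU) (M := M) (N := N) f
    (Sum.inl sOne : LPU.Functions 0) ![]
  have h1 : Vl X (tOne : LPU.Term (Empty ⊕ Fin 0)) Fin.elim0 = pOne := vl_one X _
  have h2 : Vl Y (tOne : LPU.Term (Empty ⊕ Fin 0)) Fin.elim0 = pOne := vl_one Y _
  refine Eq.trans ?_ (h.trans ?_)
  · rfl
  · change Structure.funMap (L := LPU) (Sum.inl sOne) _ = Structure.funMap (L := LPU) (Sum.inl sOne) _
    congr 1
    funext i
    exact i.elim0

theorem ElemEmb.zero (f : ElemEmb X Y) : f.fn pZero = pZero := by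
  let := expand X
  let := expand Y
  have h := ElementaryEmbedding.map_fun (L := LPU) (M := M) (N := N) f
    (Sum.inl sZero : LPU.Functions 0) ![]
  refine Eq.trans ?_ (h.trans ?_)
  · rfl
  · change Structure.funMap (L := LPU) (Sum.inl sZero) _ =
      Structure.funMap (L := LPU) (Sum.inl sZero) _
    congr 1
    funext i
    exact i.elim0

theorem ElemEmb.add (f : ElemEmb X Y) (x y : M) : f.fn (pAdd x y) = pAdd (f.fn x) (f.fn y) := by
  let := expand X
  let := expand Y
  have h := ElementaryEmbedding.map_fun (L := LPU) (M := M) (N := N) f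
    (Sum.inl sAdd : LPU.Functions 2) ![x, y]
  refine Eq.trans ?_ (h.trans ?_)
  · rfl
  · change Structure.funMap (L := LPU) (Sum.inl sAdd) _ =
      Structure.funMap (L := LPU) (Sum.inl sAdd) _
    congr 1
    funext i
    fin_cases i <;> rfl

end emb

end Pool.Agent.Q309.CPG
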