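import Pool.Agent.Q309.CPG.Arith

/-!
# Construction of strongly CP-generic sets with prescribed behaviour on external blocks
-/

set_option autoImplicit false
set_option linter.unusedSectionVars false

namespace Pool.Agent.Q309.CPG

open FirstOrder FirstOrder.Language

universe u v

section gen

variable {M : Type u}

/-- Conditions: finitely many decisions, and finitely many controlled blocks. -/
structure Cnd (M : Type u) where
  dom : Finset M
  val : Set M
  E : Finset M

/-- `p ≤ q` means that `q` extends `p`. -/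
def CndLe (block code : M → Set M) (p q : Cnd M) : Prop :=
  p.dom ⊆ q.dom ∧ p.E ⊆ q.E ∧ (∀ y ∈ p.dom, (y ∈ p.val ↔ y ∈ q.val)) ∧
    ∀ y ∈ q.dom, y ∉ p.dom → ∀ x ∈ p.E, y ∈ block x → (y ∈ q.val ↔ y ∈ code x)

theorem CndLe.refl {block code : M → Set M} (p : Cnd M) : CndLe block code p p :=
  ⟨Finset.Subset.refl _, Finset.Subset.refl _, fun _ _ => Iff.rfl, fun _ hy hy' => absurd hy hy'⟩

theorem CndLe.trans {block code : M → Set M} {p q r : Cnd M} (h1 : CndLe block code p q)
    (h2 : CndLe block code q r) : CndLe block code p r := by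
  obtain ⟨a1, a2, a3, a4⟩ := h1
  obtain ⟨b1, b2, b3, b4⟩ := h2
  refine ⟨a1.trans b1, a2.trans b2, fun y hy => (a3 y hy).trans (b3 y (a1 hy)), ?_⟩
  intro y hy hyp x hx hyb
  by_cases h : y ∈ q.dom
  · exact (b3 y h).symm.trans (a4 y h hyp x hx hyb)
  · exact b4 y hy h x (a2 hx) hyb

/-- A generic sequence for countably many requirements. -/
theorem exists_seq {block code : M → Set M} {ι : Type*} [Countable ι]
    (R : ι → Cnd M → Prop) (hR : ∀ i p, ∃ q, CndLe block code p q ∧ R i q) (p₀ : Cnd M) :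
    ∃ g : ℕ → Cnd M, g 0 = p₀ ∧ (∀ m n, m ≤ n → CndLe block code (g m) (g n)) ∧
      ∀ i, ∃ n, R i (g n) := by
  rcases isEmpty_or_nonempty ι with hι | hι
  · exact ⟨fun _ => p₀, rfl, fun _ _ _ => CndLe.refl _, fun i => hι.elim i⟩
  obtain ⟨e, he⟩ := exists_surjective_nat ι
  choose next hnext1 hnext2 using hR
  let g : ℕ → Cnd M := fun n => Nat.rec p₀ (fun k p => next (e k) p) n
  have hstep : ∀ n, g (n + 1) = next (e n) (g n) := fun n => rfl
  refine ⟨g, rfl, ?_, ?_⟩
  · intro m n hmn
    induction n, hmn using Nat.le_induction with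
    | base => exact CndLe.refl _
    | succ n _ ih => exact ih.trans (hstep n ▸ hnext1 _ _)
  · intro i
    obtain ⟨n, rfl⟩ := he i
    exact ⟨n + 1, hstep n ▸ hnext2 _ _⟩

end gen

/-- Numbers of the function symbols. -/
def fnum : {n : ℕ} → PAFunc n → ℕ
  | _, .zero => 0
  | _, .one => 1
  | _, .add => 2
  | _, .mul => 3

instance {n : ℕ} : Countable (PAFunc n) :=
  Function.Injective.countable (f := fnum) fun a b h => by
    cases a <;> cases b <;> first | rfl | exact absurd h (by decide)

instance {n : ℕ} : Countable (PARel n) :=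
  Function.Injective.countable (f := fun _ => (0 : ℕ)) fun a b _ => by
    cases a; cases b; rfl

instance : Countable LPA.Symbols := by
  have h1 : ∀ n, Countable (LPA.Functions n) := fun n => inferInstanceAs (Countable (PAFunc n))
  have h2 : ∀ n, Countable (LPA.Relations n) := fun n => inferInstanceAs (Countable (PARel n))
  exact inferInstanceAs (Countable ((Σ l, LPA.Functions l) ⊕ Σ l, LPA.Relations l))

section main

variable {M : Type u} [LPA.Structure M] [Countable M]

/-- The construction. -/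
theorem exists_strongly_generic (block code : M → Set M)
    (hdisj : ∀ x x' y, y ∈ block x → y ∈ block x' → x = x')
    (hav : ∀ (n : ℕ) (D : Set (Fin n → M)), (Set.univ : Set M).Definable LPA D →
      (∃ B ⊆ D, Spread B) → ∀ F E : Finset M, ∃ t ∈ D, Function.Injective t ∧
        ∀ i, t i ∉ F ∧ ∀ x ∈ E, t i ∉ block x) :
    ∃ X : Set M, StronglyCPGeneric X ∧
      ∀ x, ∃ W : Finset M, ∀ y ∈ block x, y ∉ W → (y ∈ X ↔ y ∈ code x) := by
  classical
  -- requirements
  let ι : Type u := M ⊕ (M ⊕ (Σ n : ℕ, (LPA[[(Set.univ : Set M)]]).Formula (Fin n) × Set (Fin n)))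
  have : Countable (Set.univ : Set M) := inferInstance
  have hι : Countable ι := inferInstance
  let Def : (n : ℕ) → (LPA[[(Set.univ : Set M)]]).Formula (Fin n) → Set (Fin n → M) :=
    fun n φ => {v | φ.Realize v}
  let R : ι → Cnd M → Prop := fun i q => match i with
    | Sum.inl y => y ∈ q.dom
    | Sum.inr (Sum.inl x) => x ∈ q.E
    | Sum.inr (Sum.inr ⟨n, φ, I⟩) => (∃ B ⊆ Def n φ, Spread B) →
        ∃ t ∈ Def n φ, ∀ i, t i ∈ q.dom ∧ (t i ∈ q.val ↔ i ∈ I)
  have hR : ∀ i p, ∃ q, CndLe block code p q ∧ R i q := by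
    rintro (y | x | ⟨n, φ, I⟩) p
    · by_cases hy : y ∈ p.dom
      · exact ⟨p, CndLe.refl _, hy⟩
      · refine ⟨⟨insert y p.dom, {w | (w ≠ y ∧ w ∈ p.val) ∨
          (w = y ∧ ∃ x ∈ p.E, y ∈ block x ∧ y ∈ code x)}, p.E⟩, ⟨?_, ?_, ?_, ?_⟩, ?_⟩
        · exact Finset.subset_insert _ _
        · exact Finset.Subset.refl _
        · intro w hw
          have hne : w ≠ y := fun h => hy (h ▸ hw)
          constructor
          · intro h
            exact Or.inl ⟨hne, h⟩
          · rintro (⟨-, h⟩ | ⟨h, -⟩)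
            · exact h
            · exact absurd h hne
        · intro w hw hwp x hx hwb
          have hwy : w = y := by
            rcases Finset.mem_insert.1 hw with h | h
            · exact h
            · exact absurd h hwp
          subst hwy
          constructor
          · rintro (⟨h, -⟩ | ⟨-, x', hx', h1, h2⟩)
            · exact absurd rfl h
            · rwa [hdisj x x' w hwb h1]
          · intro h
            exact Or.inr ⟨rfl, x, hx, hwb, h⟩
        · exact Finset.mem_insert_self _ _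
    · refine ⟨⟨p.dom, p.val, insert x p.E⟩, ⟨Finset.Subset.refl _, Finset.subset_insert _ _,
        fun _ _ => Iff.rfl, fun y hy hy' => absurd hy hy'⟩, Finset.mem_insert_self _ _⟩
    · by_cases hB : ∃ B ⊆ Def n φ, Spread B
      · obtain ⟨t, ht, htinj, hta⟩ := hav n (Def n φ) ⟨φ, rfl⟩ hB p.dom p.E
        refine ⟨⟨p.dom ∪ Finset.univ.image t, {w | (w ∈ p.dom ∧ w ∈ p.val) ∨ ∃ i ∈ I, w = t i},
          p.E⟩, ⟨Finset.subset_union_left, Finset.Subset.refl _, ?_, ?_⟩, ?_⟩
        · intro y hy
          constructor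
          · intro h
            exact Or.inl ⟨hy, h⟩
          · rintro (⟨-, h⟩ | ⟨i, -, rfl⟩)
            · exact h
            · exact absurd hy (hta i).1
        · intro y hy hyp x hx hyb
          rcases Finset.mem_union.1 hy with h | h
          · exact absurd h hyp
          · obtain ⟨i, -, rfl⟩ := Finset.mem_image.1 h
            exact absurd hyb ((hta i).2 x hx)
        · intro _
          refine ⟨t, ht, fun i => ⟨Finset.mem_union_right _ (Finset.mem_image_of_mem _
            (Finset.mem_univ i)), ?_⟩⟩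
          constructor
          · rintro (⟨h, -⟩ | ⟨j, hj, h⟩)
            · exact absurd h (hta i).1
            · rwa [htinj h]
          · intro h
            exact Or.inr ⟨i, h, rfl⟩
      · exact ⟨p, CndLe.refl _, fun h => absurd h hB⟩
  obtain ⟨g, -, hmono, hg⟩ := exists_seq R hR ⟨∅, ∅, ∅⟩
  let X : Set M := {y | ∃ n, y ∈ (g n).dom ∧ y ∈ (g n).val}
  have hX : ∀ n, ∀ y ∈ (g n).dom, (y ∈ X ↔ y ∈ (g n).val) := by
    intro n y hy
    constructor
    · rintro ⟨m, hm, hm'⟩
      rcases le_total m n with h | h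
      · exact ((hmono m n h).2.2.1 y hm).1 hm'
      · exact ((hmono n m h).2.2.1 y hy).2 hm'
    · intro h
      exact ⟨n, hy, h⟩
  refine ⟨X, ?_, ?_⟩
  · intro n _ D hD hB I
    obtain ⟨φ, hφ⟩ := hD
    obtain ⟨k, hk⟩ := hg (Sum.inr (Sum.inr ⟨n, φ, I⟩))
    have hB' : ∃ B ⊆ Def n φ, Spread B := by
      change ∃ B ⊆ {v | φ.Realize v}, Spread B
      rw [← hφ]
      exact hB
    obtain ⟨t, ht, ht'⟩ := hk hB'
    refine ⟨t, ?_, fun i => ?_⟩
    · rw [hφ]
      exact ht
    · rw [hX k _ (ht' i).1]
      exact (ht' i).2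
  · intro x
    obtain ⟨k, hk⟩ := hg (Sum.inr (Sum.inl x))
    refine ⟨(g k).dom, fun y hy hyk => ?_⟩
    obtain ⟨m, hm⟩ := hg (Sum.inl y)
    have hm' : y ∈ (g (max k m)).dom := (hmono m _ (le_max_right _ _)).1 hm
    rw [hX _ y hm']
    exact (hmono k _ (le_max_left _ _)).2.2.2 y hm' hyk x hk hy

end main

end Pool.Agent.Q309.CPG
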