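import Pool.Agent.Q309.CPG.Frm

/-!
# Strongly CP-generic sets without strongly CP-generic elementary extensions
-/

set_option autoImplicit false
set_option linter.unusedSectionVars false

namespace Pool.Agent.Q309.CPG

open FirstOrder FirstOrder.Language

universe u v

section model

variable {M : Type u} [LPA.Structure M] [CommSemiring M] [LinearOrder M] [IsStrictOrderedRing M]
  [PAModel M]

/-- For a strongly CP-generic set, `θ` defines the standard cut. -/
theorem th_iff {X : Set M} (hX : StronglyCPGeneric X) (k : M) : Th X k ↔ Std k := by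
  constructor
  · intro ⟨c, hc⟩
    by_contra hk
    -- the interval `[c, c + k]`
    have hD : Dfb fun v : Fin 1 → M => ¬ pLt (v 0) c ∧ ¬ pLt (pAdd c k) (v 0) :=
      (Dfb.lt (TmF.var 0) (TmF.const c)).not.and
        (Dfb.lt ((TmF.const c).add (TmF.const k)) (TmF.var 0)).not
    obtain ⟨b, hb, hbX⟩ := hX 1 le_rfl _ hD
      ⟨Set.range fun (n : ℕ) (_ : Fin 1) => c + (n : M), by
        rintro _ ⟨n, rfl⟩
        change ¬ pLt (c + (n : M)) c ∧ ¬ pLt (pAdd c k) (c + (n : M))
        rw [PAModel.lt_eq, PAModel.lt_eq, PAModel.add_eq, not_lt, not_lt]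
        exact ⟨le_add_of_nonneg_right (PAModel.nonneg _), add_le_add_right (nonstd_gt hk n).le c⟩,
        by
          have hinj : Function.Injective fun (n : ℕ) (_ : Fin 1) => c + (n : M) := by
            intro m n hmn
            have h1 := congrFun hmn 0
            exact Nat.cast_injective (add_left_cancel h1)
          refine ⟨Set.infinite_range_of_injective hinj, fun t _ i j _ => Subsingleton.elim _ _, ?_⟩
          rintro _ ⟨m, rfl⟩ _ ⟨n, rfl⟩ hne i j h
          exact hne (funext fun _ => h)⟩ {0}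
    have hb0 : b 0 ∈ X := (hbX 0).2 rfl
    have hb1 : ¬ pLt (b 0) c ∧ ¬ pLt (pAdd c k) (b 0) := hb
    rw [PAModel.lt_eq, PAModel.lt_eq, PAModel.add_eq, not_lt, not_lt] at hb1
    obtain ⟨z, hz⟩ := exists_add_of_le hb1.1
    refine hc z ?_ ?_
    · rw [PAModel.lt_eq, not_lt]
      rw [← hz] at hb1
      exact le_of_add_le_add_left hb1.2
    · rw [PAModel.add_eq, hz]
      exact hb0
  · rintro ⟨n, rfl⟩
    have hD : Dfb fun v : Fin (n + 1) → M => ∀ i : Fin (n + 1), v i = pAdd (v 0) ((i : ℕ) : M) :=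
      Dfb.all_fin fun i => Dfb.eq (TmF.var i) ((TmF.var 0).add (TmF.const _))
    obtain ⟨b, hb, hbX⟩ := hX (n + 1) (by omega) _ hD
      ⟨Set.range fun (m : ℕ) (i : Fin (n + 1)) => ((((n + 1) * m + i : ℕ)) : M), by
        rintro _ ⟨m, rfl⟩ i
        change ((((n + 1) * m + i : ℕ)) : M) = pAdd ((((n + 1) * m + 0 : ℕ)) : M) _
        rw [PAModel.add_eq]
        push_cast
        ring,
        by
          have hinj : Function.Injective
              fun (m : ℕ) (i : Fin (n + 1)) => ((((n + 1) * m + i : ℕ)) : M) := by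
            intro m m' hmm'
            have h1 := Nat.cast_injective (R := M) (congrFun hmm' 0)
            have h2 : (n + 1) * m = (n + 1) * m' := by simpa using h1
            exact Nat.eq_of_mul_eq_mul_left (by omega) h2
          refine ⟨Set.infinite_range_of_injective hinj, ?_, ?_⟩
          · rintro _ ⟨m, rfl⟩ i j hij
            have h1 := Nat.cast_injective (R := M) hij
            exact Fin.ext (by omega)
          · rintro _ ⟨m, rfl⟩ _ ⟨m', rfl⟩ hne i j h
            have h1 := Nat.cast_injective (R := M) h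
            apply hne
            have h2 : m = m' := by
              have hi := i.2
              have hj := j.2
              have e1 : ((n + 1) * m + i) / (n + 1) = m := by
                rw [Nat.mul_add_div (by omega), Nat.div_eq_of_lt hi, Nat.add_zero]
              have e2 : ((n + 1) * m' + j) / (n + 1) = m' := by
                rw [Nat.mul_add_div (by omega), Nat.div_eq_of_lt hj, Nat.add_zero]
              rw [← e1, ← e2, h1]
            rw [h2]⟩ ∅
    refine ⟨b 0, fun z hz hzX => ?_⟩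
    rw [PAModel.lt_eq, not_lt] at hz
    obtain ⟨m, hm, rfl⟩ := std_of_le hz
    have h1 := hb ⟨m, by omega⟩
    have h2 := (hbX ⟨m, by omega⟩).1 (by rw [h1]; exact hzX)
    exact h2

theorem num_eq {i j : ℕ} {k₀ : ℕ} (h : ∀ k, k₀ ≤ k → (i + 1 ∣ k ↔ j + 1 ∣ k)) : i = j := by
  have key : ∀ a b : ℕ, (∀ k, k₀ ≤ k → (a + 1 ∣ k → b + 1 ∣ k)) → b + 1 ∣ a + 1 := by
    intro a b hab
    have h0 : k₀ ≤ (a + 1) * (1 + (b + 1) * k₀) := by
      calc k₀ ≤ (b + 1) * k₀ := Nat.le_mul_of_pos_left _ (by omega)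
        _ ≤ 1 + (b + 1) * k₀ := Nat.le_add_left _ _
        _ ≤ (a + 1) * (1 + (b + 1) * k₀) := Nat.le_mul_of_pos_left _ (by omega)
    have h1 := hab ((a + 1) * (1 + (b + 1) * k₀)) h0 ⟨_, rfl⟩
    have h2 : (a + 1) * (1 + (b + 1) * k₀) = (a + 1) + (b + 1) * ((a + 1) * k₀) := by ring
    rw [h2] at h1
    exact (Nat.dvd_add_left ⟨_, rfl⟩).1 h1
  have h1 := key i j fun k hk => (h k hk).1
  have h2 := key j i fun k hk => (h k hk).2
  have := Nat.dvd_antisymm h2 h1
  omega

/-- Divisibility of standard elements. -/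
theorem dvd_iff_std {i k : ℕ} : (∃ q : M, (k : M) = pMul (pAdd (i : M) pOne) q) ↔ i + 1 ∣ k := by
  constructor
  · rintro ⟨q, hq⟩
    rw [PAModel.mul_eq, PAModel.add_eq, PAModel.one_eq] at hq
    have h1 : q ≤ (k : M) := by
      rw [hq]
      exact le_mul_of_one_le_left (PAModel.nonneg q) (le_add_of_nonneg_left (PAModel.nonneg _))
    obtain ⟨m, -, rfl⟩ := std_of_le h1
    refine ⟨m, ?_⟩
    apply Nat.cast_injective (R := M)
    rw [hq]
    push_cast
    ring
  · rintro ⟨m, rfl⟩
    refine ⟨(m : M), ?_⟩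
    rw [PAModel.mul_eq, PAModel.add_eq, PAModel.one_eq]
    push_cast
    ring

/-- Multiples of a nonstandard element determine disjoint external blocks. -/
theorem block_disj {ν : M} (hν : ¬ Std ν) {x x' : M} {k k' : ℕ}
    (h : ν * x + (k : M) = ν * x' + (k' : M)) : x = x' := by
  have key : ∀ (y y' : M) (l l' : ℕ), y < y' → ν * y + (l : M) = ν * y' + (l' : M) → False := by
    intro y y' l l' hy h
    obtain ⟨z, hz⟩ := PAModel.exists_add _ _ hy
    have hz0 : 0 < z := by
      rcases (PAModel.nonneg z).lt_or_eq with h2 | h2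
      · exact h2
      · rw [← h2, add_zero] at hz
        exact absurd hz hy.ne
    have hz1 := PAModel.one_le z hz0
    rw [← hz, mul_add, add_assoc] at h
    have h1 := add_left_cancel h
    have h2 : ν ≤ ν * z := le_mul_of_one_le_right (PAModel.nonneg ν) hz1
    have h3 : ν ≤ (l : M) := by
      rw [h1]
      exact h2.trans (le_add_of_nonneg_right (PAModel.nonneg _))
    exact absurd h3 (not_le.2 (nonstd_gt hν l))
  rcases lt_trichotomy x x' with h1 | h1 | h1
  · exact (key _ _ _ _ h1 h).elim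
  · exact h1
  · exact (key _ _ _ _ h1 h.symm).elim

end model

/-- The main theorem, for structures with compatible instances. -/
theorem main_aux {M : Type u} [LPA.Structure M] [CommSemiring M] [LinearOrder M]
    [IsStrictOrderedRing M] [PAModel M] [Countable M] :
    ∃ X : Set M, StronglyCPGeneric X ∧ ∀ (N : Type v) [LPA.Structure N] (Y : Set N), IsPA N →
      StronglyCPGeneric Y → ∀ f : ElemEmb X Y, Function.Surjective f.fn := by
  classical
  by_cases hst : ∀ a : M, Std a
  · -- the standard model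
    obtain ⟨X, hX, -⟩ := exists_strongly_generic (M := M) (fun _ => ∅) (fun _ => ∅)
      (fun x x' y h => h.elim) (fun n D _ hB F E => by
        obtain ⟨B, hBD, hB⟩ := hB
        obtain ⟨t, ht, ht'⟩ := spread_avoid hB F.finite_toSet
        exact ⟨t, hBD ht, hB.inj t ht, fun i => ⟨ht' i, fun x _ h => h⟩⟩)
    refine ⟨X, hX, fun N _ Y hN hY f b => ?_⟩
    let := hN.semiring
    let := hN.order
    have := hN.ordered
    have := hN.model
    have h1 : Tr X (theta (0 : Fin 1)).all Fin.elim0 := by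
      rw [tr_all]
      intro a
      rw [tr_theta]
      exact (th_iff hX _).2 (hst _)
    have h2 := (f.tr _ _).2 h1
    rw [tr_all] at h2
    have h3 := h2 b
    rw [tr_theta, th_iff hY] at h3
    obtain ⟨n, hn⟩ := h3
    have h4 : ∀ m : ℕ, f.fn ((m : ℕ) : M) = (m : N) := by
      intro m
      induction m with
      | zero =>
        rw [Nat.cast_zero, Nat.cast_zero, ← PAModel.zero_eq, ← PAModel.zero_eq]
        exact f.zero
      | succ m ih =>
        rw [Nat.cast_succ, Nat.cast_succ, ← PAModel.one_eq, ← PAModel.one_eq, ← PAModel.add_eq,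
          ← PAModel.add_eq, f.add, ih, f.one]
    refine ⟨(n : M), ?_⟩
    rw [h4]
    exact hn.symm
  · push Not at hst
    obtain ⟨ν, hν⟩ := hst
    have : Infinite M := Infinite.of_injective (fun n : ℕ => (n : M)) Nat.cast_injective
    obtain ⟨j⟩ : Nonempty (M ≃ ℕ) := nonempty_equiv_of_countable
    obtain ⟨X, hX, hXc⟩ := exists_strongly_generic (M := M)
      (fun x => {y | ∃ k : ℕ, y = ν * x + k}) (fun x => {y | ∃ k : ℕ, y = ν * x + k ∧ j x + 1 ∣ k})
      (fun x x' y ⟨k, hk⟩ ⟨k', hk'⟩ => block_disj hν (hk.symm.trans hk'))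
      (fun n D hD hB F E => by
        obtain ⟨t, ht, hinj, ht'⟩ := avoid hD hB F (E.image fun x => ν * x) hν
        exact ⟨t, ht, hinj, fun i => ⟨(ht' i).1, fun x hx ⟨k, hk⟩ =>
          (ht' i).2 _ (Finset.mem_image_of_mem _ hx) k hk⟩⟩)
    refine ⟨X, hX, fun N _ Y hN hY f b => ?_⟩
    let := hN.semiring
    let := hN.order
    have := hN.ordered
    have := hN.model
    have hcode : ∀ x : M, ∃ k₀ : ℕ, ∀ k : ℕ, k₀ ≤ k → (ν * x + (k : M) ∈ X ↔ j x + 1 ∣ k) := by
      intro x
      obtain ⟨W, hW⟩ := hXc x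
      have hfin : {k : ℕ | ν * x + (k : M) ∈ W}.Finite :=
        W.finite_toSet.preimage (fun k _ k' _ h => Nat.cast_injective (add_left_cancel h))
      obtain ⟨k₀, hk₀⟩ := hfin.bddAbove
      refine ⟨k₀ + 1, fun k hk => ?_⟩
      have h1 : ν * x + (k : M) ∉ W := fun h => by
        have := hk₀ h
        omega
      rw [hW _ ⟨k, rfl⟩ h1]
      constructor
      · rintro ⟨k', hk', hd⟩
        have : k = k' := Nat.cast_injective (add_left_cancel hk')
        rwa [this]
      · intro hd
        exact ⟨k, rfl, hd⟩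
    have hEt : ∀ (x : M) (i : ℕ), Et X ν x (i : M) ↔ i = j x := by
      intro x i
      obtain ⟨k₁, hk₁⟩ := hcode x
      constructor
      · rintro ⟨k₀, h1, h2⟩
        rw [th_iff hX] at h1
        obtain ⟨k₀, rfl⟩ := h1
        refine num_eq (k₀ := max k₀ k₁) fun k hk => ?_
        rw [← hk₁ k (le_of_max_le_right hk), ← dvd_iff_std (M := M)]
        have h3 := h2 (k : M) ⟨(th_iff hX _).2 ⟨k, rfl⟩, by
          rw [PAModel.lt_eq, not_lt]
          exact Nat.cast_le.2 (le_of_max_le_left hk)⟩
        rw [PAModel.add_eq, PAModel.mul_eq] at h3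
        exact h3.symm
      · rintro rfl
        refine ⟨(k₁ : M), (th_iff hX _).2 ⟨k₁, rfl⟩, fun k ⟨hk, hkk⟩ => ?_⟩
        rw [th_iff hX] at hk
        obtain ⟨k, rfl⟩ := hk
        rw [PAModel.lt_eq, not_lt, Nat.cast_le] at hkk
        rw [PAModel.add_eq, PAModel.mul_eq, hk₁ k hkk, dvd_iff_std]
    -- every element has a code
    have h1 : Tr X (theta (2 : Fin 3) ⊓ eta (0 : Fin 3) 1 2).ex.all ![ν] := by
      rw [tr_all]
      intro x
      rw [tr_ex]
      refine ⟨((j x : ℕ) : M), ?_⟩
      rw [tr_and, tr_theta, tr_eta]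
      exact ⟨(th_iff hX _).2 ⟨j x, rfl⟩, (hEt x (j x)).2 rfl⟩
    have h2 : Tr X ((theta (1 : Fin 4) ⊓ (eta (0 : Fin 4) 2 1 ⊓ eta (0 : Fin 4) 3 1)).imp
        ((tv (2 : Fin 4)).bdEqual (tv 3))).all.all.all ![ν] := by
      rw [tr_all]
      intro i
      rw [tr_all]
      intro x
      rw [tr_all]
      intro x'
      rw [tr_imp, tr_and, tr_and, tr_theta, tr_eta, tr_eta, tr_eq]
      rintro ⟨h3, h4, h5⟩
      change Th X i at h3
      change Et X ν x i at h4
      change Et X ν x' i at h5
      change x = x'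
      rw [th_iff hX] at h3
      obtain ⟨i, rfl⟩ := h3
      rw [hEt] at h4 h5
      exact j.injective (h4.symm.trans h5)
    have h1' := (f.tr _ _).2 h1
    have h2' := (f.tr _ _).2 h2
    rw [tr_all] at h1'
    have h3 := h1' b
    rw [tr_ex] at h3
    obtain ⟨i, hi⟩ := h3
    rw [tr_and, tr_theta, tr_eta] at hi
    obtain ⟨hi1, hi2⟩ := hi
    change Th Y i at hi1
    change Et Y (f.fn ν) b i at hi2
    rw [th_iff hY] at hi1
    obtain ⟨i, rfl⟩ := hi1
    have h4 : ∀ m : ℕ, f.fn ((m : ℕ) : M) = (m : N) := by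
      intro m
      induction m with
      | zero =>
        rw [Nat.cast_zero, Nat.cast_zero, ← PAModel.zero_eq, ← PAModel.zero_eq]
        exact f.zero
      | succ m ih =>
        rw [Nat.cast_succ, Nat.cast_succ, ← PAModel.one_eq, ← PAModel.one_eq, ← PAModel.add_eq,
          ← PAModel.add_eq, f.add, ih, f.one]
    obtain ⟨x, hx⟩ := j.surjective i
    have h5 : Tr X (eta (0 : Fin 3) 1 2) ![ν, x, (i : M)] := by
      rw [tr_eta]
      exact (hEt x i).2 hx.symm
    have h6 := (f.tr _ _).2 h5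
    rw [tr_eta] at h6
    change Et Y (f.fn ν) (f.fn x) (f.fn (i : M)) at h6
    rw [h4] at h6
    rw [tr_all] at h2'
    have h7 := h2' (i : N)
    rw [tr_all] at h7
    have h8 := h7 (f.fn x)
    rw [tr_all] at h8
    have h9 := h8 b
    rw [tr_imp, tr_and, tr_and, tr_theta, tr_eta, tr_eta, tr_eq] at h9
    exact ⟨x, h9 ⟨(th_iff hY _).2 ⟨i, rfl⟩, h6, hi2⟩⟩

end Pool.Agent.Q309.CPG
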